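import Pool.Agent.helper16.EXG.Spec

set_option autoImplicit false

open Finset

namespace Pool.Agent.EXC

theorem GFN_fin {n : ℕ} (C : Matrix (Fin n) (Fin n) ℤ) [IsC C] (F : Type) [Field F] [Finite F] :
    Finite (EG C F) := by
  have h1 : Finite (Lm C F ≃ₗ[F] Lm C F) :=
    Finite.of_injective (fun e : Lm C F ≃ₗ[F] Lm C F => (e : Lm C F → Lm C F)) DFunLike.coe_injective
  exact Subtype.finite

theorem GFN (hGF0 : GF0_stmt) (hGF2 : GF2_stmt) (hGGA : GGA_stmt) : GFN_stmt := by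
  intro n C _ F _ _ j0 θ δ hE c0 c1 c2 x hx
  have hfin : Finite (EG C F) := GFN_fin C F
  have hRA : RA C x := f_ARA n C F j0 θ δ hE x
  obtain ⟨t, m, σ, hm, hσ, hCT⟩ := k_YCL n C F j0 θ δ hE x hRA hx
  have key : ∃ g : Fin 5 → EG C F, Subgroup.closure (Set.range fun i => g i * (x t * t⁻¹) * (g i)⁻¹) = ⊤ := by
    rcases hm with hm | hm | hm
    · subst hm
      exact hGF2 n C F j0 θ δ hE c2 σ (x t * t⁻¹) (hσ.2 rfl) hCT
    · have h0 : σ = 0 := by
        by_contra h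
        have := hσ.1 h
        omega
      subst h0
      exact hGF0 n C F j0 θ δ hE m (Or.inr hm) (by rw [hm]; exact c1) (x t * t⁻¹) hCT
    · have h0 : σ = 0 := by
        by_contra h
        have := hσ.1 h
        omega
      subst h0
      exact hGF0 n C F j0 θ δ hE m (Or.inl hm) (by rw [hm]; exact c0) (x t * t⁻¹) hCT
  obtain ⟨g, hg⟩ := key
  obtain ⟨h1, h2⟩ := hGGA (EG C F) x t g hg
  exact ⟨h1, h2 (f_FIX n C F j0 θ δ hE).2⟩

end Pool.Agent.EXC
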